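import Mathlib
import Pool.Agent.Run7.h866.AF.FormOne
import Pool.Agent.Run7.h866.AF.Cusp3
import Pool.Agent.Run7.h866.AF.StmB
import Pool.Agent.Run7.h866.AF.M2

/-!
# There is no local lifting compatible with all global liftings

The question Q1 of `MP_5ae62c_nt` has a negative answer, for every non-archimedean local field
of positive characteristic, already for `G = GL_2` and the identity representation
`ρ = id : GL_2(ℂ) → GL_2(ℂ)`.

Let `F` be a finite field, `K = F(t)` and let `K_∞ = F((1/t))` be the completion at the place
`∞` (`none`). There is no map `l` from the irreducible representations of `GL_2(K_∞)` to
themselves such that for every automorphic representation `π` of `GL_2(𝔸)` and every global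
lifting `σ` of `π` (an isobaric automorphic representation whose components at all places at
which `π` is unramified agree with those of `π`) the component of `σ` at `∞` is `l (π_∞)`.

The reason: the Steinberg representation is the component at `∞` of

* an automorphic representation `π` with trivial components at all places different from `∞`
  (a quotient of the space generated by the difference of a solution `E` of the Poisson
  equation `T E = (q + 1) E + c` on the tree and its Atkin-Lehner translate); its global lifting
  is the trivial representation `|.|^{1/2} ⊞ |.|^{-1/2}`, with trivial component at `∞`;
* a cuspidal automorphic representation `π'`, of Kloosterman type; its global lifting is `π'`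
  itself, and its component at `∞` is not the trivial representation.

The definitions are in `Pool.Agent.Run7.h866.AF.Stm`, for `GL_2` over `K = F(t)`.
-/

set_option autoImplicit false
noncomputable section

namespace Pool.Agent.Results.MP_5ae62c_nt.NoLocalLifting

open Run7.h866.AF Run7.h866.LM

/-- **No local lifting.** For every finite field `F`, with `K = F(t)` and the local field
`K_∞ = F((1/t))`, there is no map `l` on the irreducible representations of `GL_2(K_∞)` such
that the component at `∞` of `σ` is `l (π_∞)` for every automorphic representation `π` of
`GL_2(𝔸)` and every global lifting `σ` of `π` with respect to `ρ = id`. -/
theorem result (F : Type) [Field F] [Fintype F] :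
    ¬ ∃ l : IrrRep (Kw F none) → IrrRep (Kw F none), Run7.h866.LM.IsLocalLifting none l := by
  rintro ⟨l, hl⟩
  exact Run7.h634.AF.main_of' F exists_form_one (exists_form_two F)
    ⟨l, Run7.h866.LM.of_isLocalLifting hl⟩

end Pool.Agent.Results.MP_5ae62c_nt.NoLocalLifting
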